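import Pool.Agent.Y373.SF.Stm

/-!
Counting the pairs `(x, y)` of points of the grid with `x + y` in the grid.
-/

set_option autoImplicit false

namespace Pool.Agent.Y373.SF

open Finset

theorem cnt_mem {d N : ℕ} {x : Fin d → ℕ} : x ∈ grid d N ↔ ∀ i, 1 ≤ x i ∧ x i ≤ N := by
  unfold grid
  rw [Fintype.mem_piFinset]
  exact forall_congr' fun i => Finset.mem_Icc

/-- the pairs of points of the grid with sum in the grid -/
def cntP (d N : ℕ) : Finset ((Fin d → ℕ) × (Fin d → ℕ)) :=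
  (grid d N ×ˢ grid d N).filter fun q => q.1 + q.2 ∈ grid d N

theorem cnt_memP {d N : ℕ} {q : (Fin d → ℕ) × (Fin d → ℕ)} :
    q ∈ cntP d N ↔ q.1 ∈ grid d N ∧ q.2 ∈ grid d N ∧ q.1 + q.2 ∈ grid d N := by
  unfold cntP
  rw [Finset.mem_filter, Finset.mem_product, and_assoc]

theorem cnt_sum1 (M : ℝ) : ∀ n : ℕ, ∑ a ∈ Icc 1 n, (M - (a : ℝ)) = n * M - n * (n + 1) / 2
  | 0 => by simp
  | n + 1 => by
    rw [Finset.sum_Icc_succ_top (by omega), cnt_sum1 M n]
    push_cast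
    ring

theorem cnt_total (d N : ℕ) : ∑ x ∈ grid d N, ∏ i, ((N : ℝ) - (x i : ℝ)) =
    ((N : ℝ) * ((N : ℝ) - 1) / 2) ^ d := by
  unfold grid
  rw [← Finset.prod_univ_sum (fun _ : Fin d => Icc 1 N) (fun _ a => (N : ℝ) - (a : ℝ)),
    Finset.prod_const, Finset.card_univ, Fintype.card_fin, cnt_sum1]
  congr 1
  ring

theorem cnt_fib1 {d N : ℕ} (x : Fin d → ℕ) (hx : x ∈ grid d N) :
    ∏ i, (N - x i) ≤ ((cntP d N).filter fun q => q.1 = x).card := by
  have h : ∏ i, (N - x i) = (Fintype.piFinset fun i => Icc 1 (N - x i)).card := by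
    rw [Fintype.card_piFinset]
    exact Finset.prod_congr rfl fun i _ => by rw [Nat.card_Icc]; omega
  rw [h]
  refine Finset.card_le_card_of_injOn (fun y => (x, y)) ?_ ?_
  · intro y hy
    rw [Finset.mem_coe, Fintype.mem_piFinset] at hy
    rw [cnt_mem] at hx
    rw [Finset.mem_coe, Finset.mem_filter, cnt_memP, cnt_mem, cnt_mem, cnt_mem]
    have hy' : ∀ i, 1 ≤ y i ∧ y i ≤ N - x i := fun i => Finset.mem_Icc.1 (hy i)
    refine ⟨⟨hx, fun i => ?_, fun i => ?_⟩, rfl⟩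
    · have := hy' i
      have := hx i
      show 1 ≤ y i ∧ y i ≤ N
      omega
    · have := hy' i
      have := hx i
      show 1 ≤ x i + y i ∧ x i + y i ≤ N
      omega
  · intro y _ y' _ e
    exact (Prod.mk.inj e).2

theorem cnt_card {d N : ℕ} : ((N : ℝ) * ((N : ℝ) - 1) / 2) ^ d ≤ ((cntP d N).card : ℝ) := by
  rw [← cnt_total]
  have h1 : (cntP d N).card = ∑ x ∈ grid d N, ((cntP d N).filter fun q => q.1 = x).card :=
    Finset.card_eq_sum_card_fiberwise fun q hq => (cnt_memP.1 hq).1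
  rw [h1, Nat.cast_sum]
  refine Finset.sum_le_sum fun x hx => ?_
  have h2 := cnt_fib1 x hx
  have h3 : ∏ i, ((N : ℝ) - (x i : ℝ)) = ((∏ i, (N - x i) : ℕ) : ℝ) := by
    rw [Nat.cast_prod]
    refine Finset.prod_congr rfl fun i _ => ?_
    rw [Nat.cast_sub (cnt_mem.1 hx i).2]
  rw [h3]
  exact_mod_cast h2

theorem cnt_up1 {d N : ℕ} (x : Fin d → ℕ) (hx : x ∈ grid d N) :
    (((cntP d N).filter fun q => q.1 = x).card : ℝ) ≤ ∏ i, ((N : ℝ) - (x i : ℝ)) := by
  have h3 : ∏ i, ((N : ℝ) - (x i : ℝ)) = ((∏ i, (N - x i) : ℕ) : ℝ) := by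
    rw [Nat.cast_prod]
    refine Finset.prod_congr rfl fun i _ => ?_
    rw [Nat.cast_sub (cnt_mem.1 hx i).2]
  have h : ∏ i, (N - x i) = (Fintype.piFinset fun i => Icc 1 (N - x i)).card := by
    rw [Fintype.card_piFinset]
    exact Finset.prod_congr rfl fun i _ => by rw [Nat.card_Icc]; omega
  rw [h3, h]
  norm_cast
  refine Finset.card_le_card_of_injOn (fun q => q.2) ?_ ?_
  · intro q hq
    rw [Finset.mem_coe, Finset.mem_filter, cnt_memP, cnt_mem, cnt_mem, cnt_mem] at hq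
    rw [Finset.mem_coe, Fintype.mem_piFinset]
    intro i
    rw [Finset.mem_Icc]
    have h1 := hq.1.2.1 i
    have h2 := hq.1.2.2 i
    rw [hq.2] at h2
    have h4 : (x + q.2) i = x i + q.2 i := rfl
    rw [h4] at h2
    show 1 ≤ q.2 i ∧ q.2 i ≤ N - x i
    omega
  · intro q hq q' hq' e
    rw [Finset.mem_coe, Finset.mem_filter] at hq hq'
    exact Prod.ext (hq.2.trans hq'.2.symm) e

theorem cnt_up2 {d N : ℕ} (x : Fin d → ℕ) (hx : x ∈ grid d N) :
    (((cntP d N).filter fun q => q.2 = x).card : ℝ) ≤ ∏ i, ((N : ℝ) - (x i : ℝ)) := by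
  refine le_trans ?_ (cnt_up1 x hx)
  norm_cast
  refine Finset.card_le_card_of_injOn (fun q => (q.2, q.1)) ?_ ?_
  · intro q hq
    rw [Finset.mem_coe, Finset.mem_filter, cnt_memP] at hq ⊢
    refine ⟨⟨hq.1.2.1, hq.1.1, ?_⟩, hq.2⟩
    show q.2 + q.1 ∈ grid d N
    rw [add_comm]
    exact hq.1.2.2
  · intro q _ q' _ e
    have h1 := Prod.mk.inj e
    exact Prod.ext h1.2 h1.1

theorem cnt_up3 {d N : ℕ} (z : Fin d → ℕ) (hz : z ∈ grid d N) :
    (((cntP d N).filter fun q => q.1 + q.2 = z).card : ℝ) ≤ ∏ i, ((z i : ℝ) - 1) := by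
  have h3 : ∏ i, ((z i : ℝ) - 1) = ((∏ i, (z i - 1) : ℕ) : ℝ) := by
    rw [Nat.cast_prod]
    refine Finset.prod_congr rfl fun i _ => ?_
    rw [Nat.cast_sub (cnt_mem.1 hz i).1, Nat.cast_one]
  have h : ∏ i, (z i - 1) = (Fintype.piFinset fun i => Icc 1 (z i - 1)).card := by
    rw [Fintype.card_piFinset]
    exact Finset.prod_congr rfl fun i _ => by rw [Nat.card_Icc]; omega
  rw [h3, h]
  norm_cast
  refine Finset.card_le_card_of_injOn (fun q => q.1) ?_ ?_
  · intro q hq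
    rw [Finset.mem_coe, Finset.mem_filter, cnt_memP, cnt_mem, cnt_mem, cnt_mem] at hq
    rw [Finset.mem_coe, Fintype.mem_piFinset]
    intro i
    rw [Finset.mem_Icc]
    have h1 := hq.1.1 i
    have h2 := hq.1.2.1 i
    have h4 : q.1 i + q.2 i = z i := congrFun hq.2 i
    show 1 ≤ q.1 i ∧ q.1 i ≤ z i - 1
    omega
  · intro q hq q' hq' e
    rw [Finset.mem_coe, Finset.mem_filter] at hq hq'
    have h1 : q.1 = q'.1 := e
    refine Prod.ext h1 ?_
    have h2 : q.1 + q.2 = q'.1 + q'.2 := hq.2.trans hq'.2.symm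
    rw [h1] at h2
    exact add_left_cancel h2

theorem cnt : S_CNT := by
  classical
  intro d N A hA hf
  refine cnt_card.trans ?_
  set B := grid d N \ A with hB
  have hBG : ∀ x ∈ B, x ∈ grid d N := fun x hx => (Finset.mem_sdiff.1 hx).1
  have hsub : cntP d N ⊆ ((cntP d N).filter fun q => q.1 ∈ B) ∪
      (((cntP d N).filter fun q => q.2 ∈ B) ∪ ((cntP d N).filter fun q => q.1 + q.2 ∈ B)) := by
    intro q hq
    obtain ⟨h1, h2, h3⟩ := cnt_memP.1 hq
    rw [Finset.mem_union, Finset.mem_union, Finset.mem_filter, Finset.mem_filter,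
      Finset.mem_filter]
    by_cases a1 : q.1 ∈ A
    · by_cases a2 : q.2 ∈ A
      · exact Or.inr (Or.inr ⟨hq, Finset.mem_sdiff.2 ⟨h3, hf _ a1 _ a2⟩⟩)
      · exact Or.inr (Or.inl ⟨hq, Finset.mem_sdiff.2 ⟨h2, a2⟩⟩)
    · exact Or.inl ⟨hq, Finset.mem_sdiff.2 ⟨h1, a1⟩⟩
  have hcard := (Finset.card_le_card hsub).trans ((Finset.card_union_le _ _).trans
    (Nat.add_le_add_left (Finset.card_union_le _ _) _))
  have key : ∀ (g : (Fin d → ℕ) × (Fin d → ℕ) → (Fin d → ℕ)) (w : (Fin d → ℕ) → ℝ),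
      (∀ x ∈ grid d N, (((cntP d N).filter fun q => g q = x).card : ℝ) ≤ w x) →
      (((cntP d N).filter fun q => g q ∈ B).card : ℝ) ≤ ∑ x ∈ B, w x := by
    intro g w hw
    have h1 : ((cntP d N).filter fun q => g q ∈ B).card =
        ∑ x ∈ B, (((cntP d N).filter fun q => g q ∈ B).filter fun q => g q = x).card :=
      Finset.card_eq_sum_card_fiberwise fun q hq => (Finset.mem_filter.1 hq).2
    rw [h1, Nat.cast_sum]
    refine Finset.sum_le_sum fun x hx => (le_trans ?_ (hw x (hBG x hx)))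
    norm_cast
    refine Finset.card_le_card fun q hq => ?_
    rw [Finset.mem_filter, Finset.mem_filter] at hq
    exact Finset.mem_filter.2 ⟨hq.1.1, hq.2⟩
  have k1 := key (fun q => q.1) _ fun x hx => cnt_up1 x hx
  have k2 := key (fun q => q.2) _ fun x hx => cnt_up2 x hx
  have k3 := key (fun q => q.1 + q.2) _ fun x hx => cnt_up3 x hx
  have hc : ((cntP d N).card : ℝ) ≤ (((cntP d N).filter fun q => q.1 ∈ B).card : ℝ) +
      ((((cntP d N).filter fun q => q.2 ∈ B).card : ℝ) +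
        (((cntP d N).filter fun q => q.1 + q.2 ∈ B).card : ℝ)) := by
    exact_mod_cast hcard
  linarith

end Pool.Agent.Y373.SF
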