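import Pool.Agent.Y373.SF.Stm

/-!
Job SF-LOW (helper459): the complement of a sum-free set is large.
-/

set_option autoImplicit false

open Filter

namespace Pool.Agent.Y373.SF

theorem low (h1 : S_CNT) (h2 : S_TRUNC) (h3 : S_POW1) (h4 : S_POW2) : S_LOW := by
  intro ρ hρ hρ2
  obtain ⟨c, hc0, hc2, hcρ⟩ : ∃ c : ℝ, 0 < c ∧ c < 1 / 2 ∧ 2 * ρ < Real.exp c := by
    have h5 : Real.log (2 * ρ) < 1 / 2 := by
      rw [Real.log_lt_iff_lt_exp (by positivity)]
      linarith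
    have h6 : max (Real.log (2 * ρ)) 0 < 1 / 2 := max_lt h5 (by norm_num)
    refine ⟨(max (Real.log (2 * ρ)) 0 + 1 / 2) / 2, ?_, ?_, ?_⟩
    · have := le_max_right (Real.log (2 * ρ)) 0
      linarith
    · linarith
    · rw [← Real.log_lt_iff_lt_exp (by positivity)]
      have h7 := le_max_left (Real.log (2 * ρ)) 0
      linarith
  obtain ⟨l, hl⟩ : ∃ l : ℝ, l = 1 / 2 - c := ⟨_, rfl⟩
  have hl0 : 0 < l := by linarith
  have hη : 2 * Real.exp (c * l) / (2 + l) < 1 := by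
    have h5 : 1 - c * l ≤ Real.exp (-(c * l)) := by
      have := Real.add_one_le_exp (-(c * l))
      linarith
    have h6 : 0 < 1 - c * l := by nlinarith
    have h7 : Real.exp (c * l) * (1 - c * l) ≤ 1 := by
      calc Real.exp (c * l) * (1 - c * l) ≤ Real.exp (c * l) * Real.exp (-(c * l)) :=
            mul_le_mul_of_nonneg_left h5 (Real.exp_pos _).le
        _ = 1 := by rw [← Real.exp_add, add_neg_cancel, Real.exp_zero]
    rw [div_lt_one (by linarith)]
    have h8 : 2 < (2 + l) * (1 - c * l) := by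
      have h9 : (2 + l) * (1 - c * l) = 2 + l ^ 2 * (2 - c) := by
        rw [hl]
        ring
      rw [h9]
      have : 0 < l ^ 2 * (2 - c) := mul_pos (by positivity) (by linarith)
      linarith
    by_contra hcon
    push Not at hcon
    have h10 := mul_le_mul_of_nonneg_right hcon h6.le
    linarith
  have hη0 : 0 ≤ 2 * Real.exp (c * l) / (2 + l) := by positivity
  have hθ : 1 < Real.exp c / (2 * ρ) := by
    rw [one_lt_div (by positivity)]
    exact hcρ
  have ev1 := (tendsto_pow_atTop_nhds_zero_of_lt_one hη0 hη).eventually_le_const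
    (show (0 : ℝ) < 1 / 12 by norm_num)
  have ev2 := (tendsto_pow_atTop_atTop_of_one_lt hθ).eventually_ge_atTop 12
  obtain ⟨d₀, hd₀⟩ := eventually_atTop.1 (ev1.and ev2)
  refine ⟨d₀, fun d hd => ⟨2 * d + 2, fun N hN A hA hSF => ?_⟩⟩
  obtain ⟨hE, hT⟩ := hd₀ d hd
  have hNd : 2 * (d : ℝ) + 2 ≤ N := by exact_mod_cast hN
  have hN0 : (0 : ℝ) < N := by
    have : (0 : ℝ) ≤ d := Nat.cast_nonneg d
    linarith
  have hw1 : ∀ x ∈ grid d N, 0 ≤ ∏ i, ((N : ℝ) - (x i : ℝ)) := fun x hx =>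
    Finset.prod_nonneg fun i _ => by
      have h5 := (Finset.mem_Icc.1 (Fintype.mem_piFinset.1 hx i)).2
      have h6 : (x i : ℝ) ≤ N := by exact_mod_cast h5
      linarith
  have hw2 : ∀ x ∈ grid d N, 0 ≤ ∏ i, ((x i : ℝ) - 1) := fun x hx =>
    Finset.prod_nonneg fun i _ => by
      have h5 := (Finset.mem_Icc.1 (Fintype.mem_piFinset.1 hx i)).1
      have h6 : (1 : ℝ) ≤ x i := by exact_mod_cast h5
      linarith
  obtain ⟨W, hWe⟩ : ∃ W : ℝ, W = (Real.exp (-c) * N) ^ d := ⟨_, rfl⟩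
  have hW : 0 < W := by
    rw [hWe]
    positivity
  have t1 := h2 d (grid d N \ A) (grid d N) _ W l Finset.sdiff_subset hW hl0 hw1
  have t2 := h2 d (grid d N \ A) (grid d N) _ W l Finset.sdiff_subset hW hl0 hw2
  have p1 := h3 d N l hl0
  have p2 := h4 d N l hl0
  have hcnt := h1 d N A hA hSF
  have hWl : 0 < W ^ (-l) := Real.rpow_pos_of_pos hW _
  have hkey : W ^ (-l) * ((N : ℝ) ^ (2 + l) / (2 + l)) ^ d =
      ((N : ℝ) ^ 2 / 2) ^ d * (2 * Real.exp (c * l) / (2 + l)) ^ d := by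
    have e0 : 0 < Real.exp (-c) * N := by positivity
    have e1 : W ^ (-l) = ((Real.exp (-c) * N) ^ (-l)) ^ d := by
      rw [hWe, ← Real.rpow_natCast, ← Real.rpow_natCast, ← Real.rpow_mul e0.le,
        ← Real.rpow_mul e0.le, mul_comm (d : ℝ) (-l)]
    have e2 : (Real.exp (-c) * N) ^ (-l) = Real.exp (c * l) * (N : ℝ) ^ (-l) := by
      rw [Real.mul_rpow (Real.exp_pos _).le hN0.le, ← Real.exp_mul]
      congr 2
      ring
    have e3 : (N : ℝ) ^ (2 + l) = (N : ℝ) ^ 2 * (N : ℝ) ^ l := by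
      rw [Real.rpow_add hN0, Real.rpow_two]
    have e4 : (N : ℝ) ^ (-l) = ((N : ℝ) ^ l)⁻¹ := Real.rpow_neg hN0.le l
    have e5 : (N : ℝ) ^ l ≠ 0 := (Real.rpow_pos_of_pos hN0 _).ne'
    rw [e1, e2, e3, e4, ← mul_pow, ← mul_pow]
    congr 1
    field_simp
  have hleft : ((N : ℝ) ^ 2 / 2) ^ d * (1 / 2) ≤ ((N : ℝ) * ((N : ℝ) - 1) / 2) ^ d := by
    have e1 : (N : ℝ) * ((N : ℝ) - 1) / 2 = ((N : ℝ) ^ 2 / 2) * (1 + (-(1 / (N : ℝ)))) := by
      field_simp
      ring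
    rw [e1, mul_pow]
    refine mul_le_mul_of_nonneg_left ?_ (by positivity)
    have e2 : 1 / (N : ℝ) ≤ 1 := by
      rw [div_le_one hN0]
      have : (0 : ℝ) ≤ d := Nat.cast_nonneg d
      linarith
    have e3 := one_add_mul_le_pow (a := -(1 / (N : ℝ))) (by linarith) d
    have e4 : (d : ℝ) * (1 / (N : ℝ)) ≤ 1 / 2 := by
      rw [mul_one_div, div_le_iff₀ hN0]
      linarith
    linarith
  obtain ⟨Pw, hPw⟩ : ∃ Pw : ℝ, Pw = ((N : ℝ) ^ 2 / 2) ^ d := ⟨_, rfl⟩
  have hP0 : 0 < Pw := by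
    rw [hPw]
    positivity
  rw [← hPw] at hkey hleft
  have hPE : Pw * (2 * Real.exp (c * l) / (2 + l)) ^ d ≤ Pw * (1 / 12) :=
    mul_le_mul_of_nonneg_left hE hP0.le
  have q1 := mul_le_mul_of_nonneg_left p1 hWl.le
  have q2 := mul_le_mul_of_nonneg_left p2 hWl.le
  rw [hkey] at q1 q2
  have hcomb : Pw ≤ 12 * (W * ((grid d N \ A).card : ℝ)) := by linarith
  have hcard : ((grid d N \ A).card : ℝ) = (N : ℝ) ^ d - (A.card : ℝ) := by
    rw [Finset.cast_card_sdiff hA]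
    congr 1
    simp [grid]
  rw [← hcard]
  have hTW : (ρ * (N : ℝ)) ^ d * ((Real.exp c / (2 * ρ)) ^ d * W) = Pw := by
    rw [hWe, hPw, ← mul_pow, ← mul_pow]
    congr 1
    rw [Real.exp_neg]
    have := (Real.exp_pos c).ne'
    field_simp
  have hpos : 0 < (Real.exp c / (2 * ρ)) ^ d * W := mul_pos (by positivity) hW
  refine le_of_mul_le_mul_right ?_ hpos
  rw [hTW]
  have hb0 : 0 ≤ W * ((grid d N \ A).card : ℝ) := by positivity
  have := mul_le_mul_of_nonneg_right hT hb0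
  linarith

end Pool.Agent.Y373.SF
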