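import Pool.Agent.Y373.SF.Stm

/-! Sum-free subsets of the grid: the lower tail of the coordinate sum. -/

set_option autoImplicit false

namespace Pool.Agent.Y373.SF

open Finset

/-- The geometric sum. -/
theorem lt_geom (N : ℕ) (t : ℝ) (ht : 0 < t) (hN : 1 ≤ N) :
    ∑ j ∈ Icc 1 N, Real.exp (t * (1 / 3 - (j : ℝ) / N)) ≤
      Real.exp (t / 3) * (1 - Real.exp (-t)) / t * (N : ℝ) := by
  have hN0 : (0 : ℝ) < N := by exact_mod_cast hN
  have key : ∀ M : ℕ, ∑ j ∈ Icc 1 M, Real.exp (-(t * (j : ℝ) / N)) * (Real.exp (t / N) - 1) =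
      1 - Real.exp (-(t * (M : ℝ) / N)) := by
    intro M
    induction M with
    | zero => simp
    | succ M ih =>
      rw [Finset.sum_Icc_succ_top (by omega), ih]
      have e : Real.exp (-(t * ((M : ℕ) : ℝ) / N)) =
          Real.exp (-(t * ((M + 1 : ℕ) : ℝ) / N)) * Real.exp (t / N) := by
        rw [← Real.exp_add]
        congr 1
        push_cast
        field_simp
        ring
      rw [e]
      ring
  have k1 := key N
  have e1 : t * (N : ℝ) / N = t := by field_simp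
  rw [e1, ← Finset.sum_mul] at k1
  have h1 : t / N ≤ Real.exp (t / N) - 1 := by
    have := Real.add_one_le_exp (t / N)
    linarith
  have hS : 0 ≤ ∑ j ∈ Icc 1 N, Real.exp (-(t * (j : ℝ) / N)) :=
    Finset.sum_nonneg fun _ _ => (Real.exp_pos _).le
  have h2 : (∑ j ∈ Icc 1 N, Real.exp (-(t * (j : ℝ) / N))) * (t / N) ≤ 1 - Real.exp (-t) := by
    rw [← k1]
    exact mul_le_mul_of_nonneg_left h1 hS
  have h3 : ∑ j ∈ Icc 1 N, Real.exp (-(t * (j : ℝ) / N)) ≤ (1 - Real.exp (-t)) / t * N := by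
    rw [div_mul_eq_mul_div, le_div_iff₀ ht]
    rw [mul_div_assoc', div_le_iff₀ hN0] at h2
    exact h2
  have e2 : ∑ j ∈ Icc 1 N, Real.exp (t * (1 / 3 - (j : ℝ) / N)) =
      Real.exp (t / 3) * ∑ j ∈ Icc 1 N, Real.exp (-(t * (j : ℝ) / N)) := by
    rw [Finset.mul_sum]
    refine Finset.sum_congr rfl fun j _ => ?_
    rw [← Real.exp_add]
    congr 1
    ring
  rw [e2, mul_div_assoc, mul_assoc]
  exact mul_le_mul_of_nonneg_left h3 (Real.exp_pos _).le

theorem lt : S_LT := by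
  intro d N t ht hN
  have hN0 : (0 : ℝ) < N := by exact_mod_cast hN
  have h1 : (((grid d N).filter fun x => 3 * ∑ i, x i ≤ d * N).card : ℝ) ≤
      ∑ x ∈ grid d N, ∏ i, Real.exp (t * (1 / 3 - (x i : ℝ) / N)) := by
    calc (((grid d N).filter fun x => 3 * ∑ i, x i ≤ d * N).card : ℝ)
        = ∑ x ∈ (grid d N).filter (fun x => 3 * ∑ i, x i ≤ d * N), (1 : ℝ) := by simp
      _ ≤ ∑ x ∈ (grid d N).filter (fun x => 3 * ∑ i, x i ≤ d * N),
          ∏ i, Real.exp (t * (1 / 3 - (x i : ℝ) / N)) := by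
        refine Finset.sum_le_sum fun x hx => ?_
        have h2 : 3 * ∑ i, x i ≤ d * N := (Finset.mem_filter.1 hx).2
        have h3 : 3 * ∑ i, (x i : ℝ) ≤ d * N := by exact_mod_cast h2
        rw [← Real.exp_sum]
        apply Real.one_le_exp
        rw [← Finset.mul_sum]
        refine mul_nonneg ht.le ?_
        have e : ∑ i, (1 / 3 - (x i : ℝ) / N) = d * (1 / 3) - (∑ i, (x i : ℝ)) / N := by
          rw [Finset.sum_sub_distrib, Finset.sum_div]
          simp
        rw [e, sub_nonneg, div_le_iff₀ hN0]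
        linarith
      _ ≤ ∑ x ∈ grid d N, ∏ i, Real.exp (t * (1 / 3 - (x i : ℝ) / N)) :=
        Finset.sum_le_sum_of_subset_of_nonneg (Finset.filter_subset _ _)
          fun _ _ _ => Finset.prod_nonneg fun _ _ => (Real.exp_pos _).le
  have h4 : ∑ x ∈ grid d N, ∏ i, Real.exp (t * (1 / 3 - (x i : ℝ) / N)) =
      (∑ j ∈ Icc 1 N, Real.exp (t * (1 / 3 - (j : ℝ) / N))) ^ d := by
    unfold grid
    rw [← Finset.prod_univ_sum (fun _ : Fin d => Icc 1 N)
      (fun _ j => Real.exp (t * (1 / 3 - (j : ℝ) / N)))]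
    simp
  rw [h4] at h1
  refine h1.trans (pow_le_pow_left₀ (Finset.sum_nonneg fun _ _ => (Real.exp_pos _).le)
    (lt_geom N t ht hN) d)

end Pool.Agent.Y373.SF
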