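import Pool.Agent.Y373.SF.Stm

/-!
Sum-free subsets of the grid `[N]^d`: the moment of the first weight.
-/

set_option autoImplicit false

namespace Pool.Agent.Y373.SF

theorem pow1_one (N : ℕ) (l : ℝ) (hl : 0 < l) :
    ∑ j ∈ Finset.range N, (j : ℝ) ^ (1 + l) ≤ (N : ℝ) ^ (2 + l) / (2 + l) := by
  have hmono : MonotoneOn (fun x : ℝ => x ^ (1 + l)) (Set.Icc (0 : ℝ) (0 + (N : ℝ))) := by
    intro x hx y _ hxy
    exact Real.rpow_le_rpow hx.1 hxy (by linarith)
  have h := hmono.sum_le_integral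
  have h2 : ∫ x in (0 : ℝ)..(0 + (N : ℝ)), x ^ (1 + l) = (N : ℝ) ^ (2 + l) / (2 + l) := by
    rw [integral_rpow (Or.inl (by linarith)), zero_add]
    rw [Real.zero_rpow (by linarith), sub_zero]
    have : 1 + l + 1 = 2 + l := by ring
    rw [this]
  rw [h2] at h
  refine le_trans (le_of_eq ?_) h
  refine Finset.sum_congr rfl fun i _ => ?_
  simp

theorem pow1_icc (N : ℕ) (l : ℝ) (hl : 0 < l) :
    ∑ j ∈ Finset.Icc 1 N, ((N : ℝ) - (j : ℝ)) ^ (1 + l) ≤ (N : ℝ) ^ (2 + l) / (2 + l) := by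
  refine le_trans (le_of_eq ?_) (pow1_one N l hl)
  refine Finset.sum_bij' (fun j _ => N - j) (fun i _ => N - i) ?_ ?_ ?_ ?_ ?_
  · intro j hj
    rw [Finset.mem_Icc] at hj
    rw [Finset.mem_range]
    omega
  · intro i hi
    rw [Finset.mem_range] at hi
    rw [Finset.mem_Icc]
    omega
  · intro j hj
    rw [Finset.mem_Icc] at hj
    omega
  · intro i hi
    rw [Finset.mem_range] at hi
    omega
  · intro j hj
    rw [Finset.mem_Icc] at hj
    rw [Nat.cast_sub hj.2]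

/-- **The moment of the first weight.** -/
theorem pow1 : S_POW1 := by
  intro d N l hl
  have h1 : ∑ x ∈ grid d N, (∏ i, ((N : ℝ) - (x i : ℝ))) ^ (1 + l) =
      ∑ x ∈ grid d N, ∏ i, ((N : ℝ) - (x i : ℝ)) ^ (1 + l) := by
    refine Finset.sum_congr rfl fun x hx => ?_
    rw [grid, Fintype.mem_piFinset] at hx
    refine (Real.finsetProd_rpow Finset.univ _ ?_ _).symm
    intro i _
    have := (Finset.mem_Icc.mp (hx i)).2
    have h2 : (x i : ℝ) ≤ (N : ℝ) := by exact_mod_cast this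
    linarith
  have h3 : ∑ x ∈ grid d N, ∏ i, ((N : ℝ) - (x i : ℝ)) ^ (1 + l) =
      (∑ j ∈ Finset.Icc 1 N, ((N : ℝ) - (j : ℝ)) ^ (1 + l)) ^ d := by
    rw [grid, ← Finset.prod_univ_sum (fun _ : Fin d => Finset.Icc 1 N)
      (fun _ j => ((N : ℝ) - (j : ℝ)) ^ (1 + l)), Finset.prod_const, Finset.card_univ,
      Fintype.card_fin]
  rw [h1, h3]
  refine pow_le_pow_left₀ ?_ (pow1_icc N l hl) d
  refine Finset.sum_nonneg fun j hj => ?_
  have := (Finset.mem_Icc.mp hj).2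
  have h2 : (j : ℝ) ≤ (N : ℝ) := by exact_mod_cast this
  exact Real.rpow_nonneg (by linarith) _

end Pool.Agent.Y373.SF
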