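import Pool.Agent.Y373.SF.Stm

/-!
# Project SF: the moment of the second weight
-/

set_option autoImplicit false

namespace Pool.Agent.Y373.SF

theorem pow2_one (N : ℕ) (l : ℝ) (hl : 0 < l) :
    ∑ j ∈ Finset.Icc 1 N, ((j : ℝ) - 1) ^ (1 + l) ≤ (N : ℝ) ^ (2 + l) / (2 + l) := by
  have h2 : ∑ j ∈ Finset.Icc 1 N, ((j : ℝ) - 1) ^ (1 + l) =
      ∑ j ∈ Finset.range N, (j : ℝ) ^ (1 + l) := by
    induction N with
    | zero => simp
    | succ n ih =>
      rw [Finset.sum_Icc_succ_top (by omega), ih, Finset.sum_range_succ]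
      congr 2
      push_cast
      ring
  rw [h2]
  have hm : MonotoneOn (fun u : ℝ => u ^ (1 + l)) (Set.Icc 0 (0 + (N : ℝ))) :=
    fun a ha b _ hab => Real.rpow_le_rpow ha.1 hab (by linarith)
  have h := hm.sum_le_integral
  simp only [zero_add] at h
  refine h.trans (le_of_eq ?_)
  rw [integral_rpow (Or.inl (by linarith)), Real.zero_rpow (by linarith), sub_zero]
  have e : 1 + l + 1 = 2 + l := by ring
  rw [e]

theorem pow2 : S_POW2 := by
  intro d N l hl
  have h1 : ∑ x ∈ grid d N, (∏ i, ((x i : ℝ) - 1)) ^ (1 + l) =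
      ∑ x ∈ grid d N, ∏ i, ((x i : ℝ) - 1) ^ (1 + l) := by
    refine Finset.sum_congr rfl fun x hx => ?_
    rw [Real.finset_prod_rpow]
    intro i _
    have h2 := Fintype.mem_piFinset.1 hx i
    have h3 : (1 : ℝ) ≤ (x i : ℝ) := by exact_mod_cast (Finset.mem_Icc.1 h2).1
    linarith
  have h4 := Finset.prod_univ_sum (fun _ : Fin d => Finset.Icc 1 N)
    (fun _ j => ((j : ℝ) - 1) ^ (1 + l))
  rw [h1]
  unfold grid
  rw [← h4, Finset.prod_const, Finset.card_univ, Fintype.card_fin]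
  refine pow_le_pow_left₀ (Finset.sum_nonneg fun j hj => Real.rpow_nonneg ?_ _) (pow2_one N l hl) d
  have h3 : (1 : ℝ) ≤ (j : ℝ) := by exact_mod_cast (Finset.mem_Icc.1 hj).1
  linarith

end Pool.Agent.Y373.SF
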