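import Pool.Agent.Y373.SF.Stm

set_option autoImplicit false

namespace Pool.Agent.Y373.SF

theorem trunc : S_TRUNC := by
  intro d B G w W l hBG hW hl hw
  have key : ∀ x ∈ B, w x ≤ W + W ^ (-l) * (w x) ^ (1 + l) := by
    intro x hx
    have h0 := hw x (hBG hx)
    rcases le_or_gt (w x) W with h | h
    · have : 0 ≤ W ^ (-l) * (w x) ^ (1 + l) :=
        mul_nonneg (Real.rpow_nonneg hW.le _) (Real.rpow_nonneg h0 _)
      linarith
    · have hx0 : 0 < w x := hW.trans h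
      have h1 : (w x) ^ (1 + l) = w x * (w x) ^ l := by
        rw [Real.rpow_add hx0, Real.rpow_one]
      have h2 : W ^ l ≤ (w x) ^ l := Real.rpow_le_rpow hW.le h.le hl.le
      have h3 : W ^ (-l) * W ^ l = 1 := by
        rw [← Real.rpow_add hW]; simp
      have h4 : w x = w x * (W ^ (-l) * W ^ l) := by rw [h3, mul_one]
      have h5 : w x * (W ^ (-l) * W ^ l) ≤ w x * (W ^ (-l) * (w x) ^ l) :=
        mul_le_mul_of_nonneg_left (mul_le_mul_of_nonneg_left h2 (Real.rpow_nonneg hW.le _)) hx0.le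
      calc w x = w x * (W ^ (-l) * W ^ l) := h4
        _ ≤ w x * (W ^ (-l) * (w x) ^ l) := h5
        _ = W ^ (-l) * (w x) ^ (1 + l) := by rw [h1]; ring
        _ ≤ W + W ^ (-l) * (w x) ^ (1 + l) := by linarith
  calc ∑ x ∈ B, w x ≤ ∑ x ∈ B, (W + W ^ (-l) * (w x) ^ (1 + l)) := Finset.sum_le_sum key
    _ = W * (B.card : ℝ) + W ^ (-l) * ∑ x ∈ B, (w x) ^ (1 + l) := by
        rw [Finset.sum_add_distrib, Finset.sum_const, nsmul_eq_mul, Finset.mul_sum]; ring
    _ ≤ W * (B.card : ℝ) + W ^ (-l) * ∑ x ∈ G, (w x) ^ (1 + l) := by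
        have : ∑ x ∈ B, (w x) ^ (1 + l) ≤ ∑ x ∈ G, (w x) ^ (1 + l) :=
          Finset.sum_le_sum_of_subset_of_nonneg hBG fun x hx _ => Real.rpow_nonneg (hw x hx) _
        have := mul_le_mul_of_nonneg_left this (Real.rpow_nonneg hW.le (-l))
        linarith

end Pool.Agent.Y373.SF
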