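import Pool.Agent.Y373.SF.Stm

set_option autoImplicit false

namespace Pool.Agent.Y373.SF

theorem card_grid (d N : ℕ) : (grid d N).card = N ^ d := by
  simp [grid]

theorem num_bound : Real.exp ((21 / 10) / 3) * (1 - Real.exp (-(21 / 10))) / (21 / 10) ≤ 0.8416 := by
  have e1 : Real.exp (1 / 10) ≤ 1.10518 := by
    have h := Real.exp_bound' (x := 1 / 10) (by norm_num) (by norm_num) (n := 5) (by norm_num)
    refine h.trans ?_
    simp [Finset.sum_range_succ, Nat.factorial]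
    norm_num
  have h7 : Real.exp ((21 / 10) / 3) = Real.exp (1 / 10) ^ 7 := by
    rw [← Real.exp_nat_mul]; norm_num
  have h21 : Real.exp (-(21 / 10)) = (Real.exp (1 / 10) ^ 21)⁻¹ := by
    rw [← Real.exp_nat_mul, ← Real.exp_neg]; norm_num
  set E := Real.exp (1 / 10) with hE
  have hE0 : 0 < E := Real.exp_pos _
  rw [h7, h21]
  have ha : E ^ 7 ≤ 1.10518 ^ 7 := pow_le_pow_left₀ hE0.le e1 7
  have hb : (1.10518 ^ 21 : ℝ)⁻¹ ≤ (E ^ 21)⁻¹ :=
    inv_anti₀ (pow_pos hE0 _) (pow_le_pow_left₀ hE0.le e1 21)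
  have hc : 1 - (E ^ 21)⁻¹ ≤ 1 - (1.10518 ^ 21 : ℝ)⁻¹ := by linarith
  have hd : (0 : ℝ) ≤ 1 - (1.10518 ^ 21 : ℝ)⁻¹ := by norm_num
  have hprod : E ^ 7 * (1 - (E ^ 21)⁻¹) ≤ 1.10518 ^ 7 * (1 - (1.10518 ^ 21 : ℝ)⁻¹) :=
    (mul_le_mul_of_nonneg_left hc (pow_nonneg hE0.le _)).trans
      (mul_le_mul_of_nonneg_right ha hd)
  have hnum : (1.10518 : ℝ) ^ 7 * (1 - (1.10518 ^ 21 : ℝ)⁻¹) ≤ 0.8416 * (21 / 10) := by norm_num
  rw [div_le_iff₀ (by norm_num)]
  exact hprod.trans hnum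

theorem up (h1 : S_LT) (h2 : S_UT) : S_UP := by
  set r := Real.exp ((21 / 10 : ℝ) / 3) * (1 - Real.exp (-(21 / 10))) / (21 / 10) with hr
  have hr0 : 0 ≤ r := by
    rw [hr]
    have : Real.exp (-(21 / 10 : ℝ)) ≤ 1 := Real.exp_le_one_iff.2 (by norm_num)
    have h3 := Real.exp_pos ((21 / 10 : ℝ) / 3)
    apply div_nonneg (mul_nonneg h3.le (by linarith)) (by norm_num)
  have hr1 : r ≤ 0.8416 := num_bound
  refine ⟨10000, fun N hN d => ?_⟩
  have hN1 : 1 ≤ N := by omega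
  have hNr : (10000 : ℝ) ≤ N := by exact_mod_cast hN
  have hN0 : (0 : ℝ) < N := by linarith
  -- the numerical factor
  have hexp : Real.exp ((21 / 10 : ℝ) / N) ≤ 0.842 / 0.8416 := by
    have hx : (21 / 10 : ℝ) / N ≤ 21 / 100000 := by
      rw [div_le_div_iff₀ hN0 (by norm_num)]; nlinarith
    have h4 : Real.exp ((21 / 10 : ℝ) / N) ≤ Real.exp (21 / 100000) := Real.exp_le_exp.2 hx
    have h5 : Real.exp (21 / 100000 : ℝ) ≤ 1 / (1 - 21 / 100000) := by
      have h6 := Real.add_one_le_exp (-(21 / 100000 : ℝ))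
      rw [Real.exp_neg] at h6
      have h7 : (0 : ℝ) < 1 - 21 / 100000 := by norm_num
      rw [le_div_iff₀ h7]
      have h8 := Real.exp_pos (21 / 100000 : ℝ)
      have h9 : (1 - 21 / 100000 : ℝ) ≤ (Real.exp (21 / 100000))⁻¹ := by linarith
      calc Real.exp (21 / 100000 : ℝ) * (1 - 21 / 100000)
          ≤ Real.exp (21 / 100000) * (Real.exp (21 / 100000))⁻¹ :=
            mul_le_mul_of_nonneg_left h9 h8.le
        _ = 1 := mul_inv_cancel₀ h8.ne'
    refine h4.trans (h5.trans ?_)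
    norm_num
  set A := (grid d N).filter fun x => d * N < 3 * ∑ i, x i ∧ 3 * ∑ i, x i ≤ 2 * (d * N) with hA
  refine ⟨A, Finset.filter_subset _ _, ?_, ?_⟩
  · intro x hx y hy hxy
    rw [hA, Finset.mem_filter] at hx hy hxy
    have hs : ∑ i, (x + y) i = ∑ i, x i + ∑ i, y i := by
      simp [Finset.sum_add_distrib]
    have := hxy.2.2
    rw [hs] at this
    have hx2 := hx.2.1
    have hy2 := hy.2.1
    omega
  · have hsub : grid d N ⊆ A ∪ (((grid d N).filter fun x => 3 * ∑ i, x i ≤ d * N) ∪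
        ((grid d N).filter fun x => 2 * (d * N) < 3 * ∑ i, x i)) := by
      intro x hx
      rw [Finset.mem_union, Finset.mem_union, hA, Finset.mem_filter, Finset.mem_filter,
        Finset.mem_filter]
      by_cases ha : 3 * ∑ i, x i ≤ d * N
      · exact Or.inr (Or.inl ⟨hx, ha⟩)
      · by_cases hb : 2 * (d * N) < 3 * ∑ i, x i
        · exact Or.inr (Or.inr ⟨hx, hb⟩)
        · exact Or.inl ⟨hx, by omega, by omega⟩
    have hc := (Finset.card_le_card hsub).trans ((Finset.card_union_le _ _).trans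
      (Nat.add_le_add_left (Finset.card_union_le _ _) _))
    rw [card_grid] at hc
    have hc' : (N : ℝ) ^ d ≤ (A.card : ℝ) +
        ((((grid d N).filter fun x => 3 * ∑ i, x i ≤ d * N).card : ℝ) +
        (((grid d N).filter fun x => 2 * (d * N) < 3 * ∑ i, x i).card : ℝ)) := by
      exact_mod_cast hc
    have l1 := h1 d N (21 / 10) (by norm_num) hN1
    have l2 := h2 d N (21 / 10) (by norm_num) hN1
    rw [← hr] at l1 l2
    have m1 : (r * (N : ℝ)) ^ d ≤ (0.842 * (N : ℝ)) ^ d := by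
      apply pow_le_pow_left₀ (mul_nonneg hr0 hN0.le)
      apply mul_le_mul_of_nonneg_right _ hN0.le
      exact hr1.trans (by norm_num)
    have m2 : (Real.exp ((21 / 10 : ℝ) / N) * r * (N : ℝ)) ^ d ≤ (0.842 * (N : ℝ)) ^ d := by
      apply pow_le_pow_left₀ (mul_nonneg (mul_nonneg (Real.exp_pos _).le hr0) hN0.le)
      apply mul_le_mul_of_nonneg_right _ hN0.le
      calc Real.exp ((21 / 10 : ℝ) / N) * r ≤ 0.842 / 0.8416 * 0.8416 :=
            mul_le_mul hexp hr1 hr0 (by norm_num)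
        _ = 0.842 := by norm_num
    linarith

end Pool.Agent.Y373.SF
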