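import Pool.Agent.Y373.SF.Stm

/-!
Sum-free subsets of the grid: the upper tail of the coordinate sum (Chernoff bound).
-/

set_option autoImplicit false

namespace Pool.Agent.Y373.SF

/-- The geometric sum from `1` to `N`. -/
lemma ut_geom (r : ℝ) (N : ℕ) :
    (∑ j ∈ Finset.Icc 1 N, r ^ j) * (r - 1) = r * (r ^ N - 1) := by
  induction N with
  | zero => simp
  | succ N ih =>
    rw [Finset.sum_Icc_succ_top (by omega), add_mul, ih]
    ring

/-- The one-dimensional sum. -/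
lemma ut_one (N : ℕ) (t : ℝ) (ht : 0 < t) (hN : 1 ≤ N) :
    ∑ j ∈ Finset.Icc 1 N, Real.exp (t * ((j : ℝ) / N - 2 / 3)) ≤
      Real.exp (t / N) * (Real.exp (t / 3) * (1 - Real.exp (-t)) / t) * (N : ℝ) := by
  have hN0 : (0 : ℝ) < N := by exact_mod_cast hN
  set r : ℝ := Real.exp (t / N) with hr
  have hu : 0 < t / N := div_pos ht hN0
  have hr1 : t / N ≤ r - 1 := by
    have := Real.add_one_le_exp (t / N)
    linarith
  have hr0 : 0 < r - 1 := lt_of_lt_of_le hu hr1
  have hrN : r ^ N = Real.exp t := by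
    rw [hr, ← Real.exp_nat_mul]
    congr 1
    field_simp
  have h1 : ∀ j : ℕ, Real.exp (t * ((j : ℝ) / N - 2 / 3)) =
      Real.exp (-(2 * t / 3)) * r ^ j := by
    intro j
    rw [hr, ← Real.exp_nat_mul, ← Real.exp_add]
    congr 1
    ring
  simp only [h1]
  rw [← Finset.mul_sum]
  have hg := ut_geom r N
  rw [hrN] at hg
  have hexp1 : 0 < Real.exp t - 1 := by
    have := Real.add_one_lt_exp ht.ne'
    linarith
  have h2 : ∑ j ∈ Finset.Icc 1 N, r ^ j ≤ r * (Real.exp t - 1) * ((N : ℝ) / t) := by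
    have h3 : ∑ j ∈ Finset.Icc 1 N, r ^ j = r * (Real.exp t - 1) / (r - 1) := by
      rw [eq_div_iff hr0.ne']; exact hg
    rw [h3, div_eq_mul_inv]
    refine mul_le_mul_of_nonneg_left ?_ (by positivity)
    have h4 : ((N : ℝ) / t) = (t / N)⁻¹ := by rw [inv_div]
    rw [h4]
    exact inv_anti₀ hu hr1
  have h5 : Real.exp (-(2 * t / 3)) * (Real.exp t - 1) =
      Real.exp (t / 3) * (1 - Real.exp (-t)) := by
    rw [mul_sub, mul_sub, ← Real.exp_add, ← Real.exp_add, mul_one, mul_one]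
    congr 2 <;> ring
  calc Real.exp (-(2 * t / 3)) * ∑ j ∈ Finset.Icc 1 N, r ^ j
      ≤ Real.exp (-(2 * t / 3)) * (r * (Real.exp t - 1) * ((N : ℝ) / t)) :=
        mul_le_mul_of_nonneg_left h2 (Real.exp_pos _).le
    _ = r * ((Real.exp (-(2 * t / 3)) * (Real.exp t - 1)) / t) * (N : ℝ) := by
        field_simp
    _ = r * (Real.exp (t / 3) * (1 - Real.exp (-t)) / t) * (N : ℝ) := by rw [h5]

theorem ut : S_UT := by
  intro d N t ht hN
  classical
  have hN0 : (0 : ℝ) < N := by exact_mod_cast hN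
  have h1 : (((grid d N).filter fun x => 2 * (d * N) < 3 * ∑ i, x i).card : ℝ) ≤
      ∑ x ∈ grid d N, ∏ i, Real.exp (t * ((x i : ℝ) / N - 2 / 3)) := by
    rw [Finset.card_eq_sum_ones, Nat.cast_sum]
    refine le_trans (Finset.sum_le_sum fun x hx => ?_)
      (Finset.sum_le_sum_of_subset_of_nonneg (Finset.filter_subset _ _)
        fun x _ _ => Finset.prod_nonneg fun i _ => (Real.exp_pos _).le)
    rw [Nat.cast_one, ← Real.exp_sum]
    apply Real.one_le_exp
    rw [← Finset.mul_sum]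
    refine mul_nonneg ht.le ?_
    rw [Finset.sum_sub_distrib, ← Finset.sum_div, Finset.sum_const, Finset.card_univ,
      Fintype.card_fin, nsmul_eq_mul, sub_nonneg, le_div_iff₀ hN0]
    have h2 : 2 * (d * N) < 3 * ∑ i, x i := (Finset.mem_filter.1 hx).2
    have h3 : (2 : ℝ) * ((d : ℝ) * N) < 3 * ∑ i, (x i : ℝ) := by exact_mod_cast h2
    linarith
  refine h1.trans ?_
  have h4 : ∑ x ∈ grid d N, ∏ i, Real.exp (t * ((x i : ℝ) / N - 2 / 3)) =
      (∑ j ∈ Finset.Icc 1 N, Real.exp (t * ((j : ℝ) / N - 2 / 3))) ^ d := by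
    have := Finset.prod_univ_sum (fun _ : Fin d => Finset.Icc 1 N)
      (fun (_ : Fin d) (j : ℕ) => Real.exp (t * ((j : ℝ) / N - 2 / 3)))
    rw [grid, ← this, Finset.prod_const, Finset.card_univ, Fintype.card_fin]
  rw [h4]
  exact pow_le_pow_left₀ (Finset.sum_nonneg fun j _ => (Real.exp_pos _).le)
    (ut_one N t ht hN) d

end Pool.Agent.Y373.SF
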