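import Pool.Agent.Y373.SF.Stm
import Pool.Agent.Y373.SF.Trunc
import Pool.Agent.Y373.SF.Up
import Pool.Agent.Y373.SF.Cnt
import Pool.Agent.Y373.SF.Pow1
import Pool.Agent.Y373.SF.Pow2
import Pool.Agent.Y373.SF.Lt
import Pool.Agent.Y373.SF.Ut
import Pool.Agent.Y373.SF.Low

set_option autoImplicit false

namespace Pool.Agent.Y373.SF

theorem s_set_bdd (d N : ℕ) :
    BddAbove {k : ℕ | ∃ A ⊆ grid d N, SumFree A ∧ A.card = k} :=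
  ⟨(grid d N).card, by rintro k ⟨A, hA, -, rfl⟩; exact Finset.card_le_card hA⟩

theorem s_set_nonempty (d N : ℕ) :
    {k : ℕ | ∃ A ⊆ grid d N, SumFree A ∧ A.card = k}.Nonempty :=
  ⟨0, ∅, Finset.empty_subset _, fun x hx => absurd hx (Finset.notMem_empty x), rfl⟩

theorem final :
    (∀ ρ : ℝ, 0 < ρ → ρ < Real.exp (1 / 2) / 2 → ∃ d₀ : ℕ, ∀ d ≥ d₀, ∃ N₀ : ℕ, ∀ N ≥ N₀,
      (ρ * (N : ℝ)) ^ d ≤ (N : ℝ) ^ d - (s d N : ℝ)) ∧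
    (∃ N₀ : ℕ, ∀ N ≥ N₀, ∀ d : ℕ,
      (N : ℝ) ^ d - (s d N : ℝ) ≤ 2 * (0.842 * (N : ℝ)) ^ d) := by
  constructor
  · intro ρ h0 h1
    obtain ⟨d₀, hd⟩ := low cnt trunc pow1 pow2 ρ h0 h1
    refine ⟨d₀, fun d hd' => ?_⟩
    obtain ⟨N₀, hN⟩ := hd d hd'
    refine ⟨N₀, fun N hN' => ?_⟩
    obtain ⟨A, hA, hS, hc⟩ := Nat.sSup_mem (s_set_nonempty d N) (s_set_bdd d N)
    have := hN N hN' A hA hS
    rw [hc] at this
    exact this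
  · obtain ⟨N₀, hN⟩ := up lt ut
    refine ⟨N₀, fun N hN' d => ?_⟩
    obtain ⟨A, hA, hS, hc⟩ := hN N hN' d
    have h : A.card ≤ s d N := le_csSup (s_set_bdd d N) ⟨A, hA, hS, rfl⟩
    have h' : (A.card : ℝ) ≤ (s d N : ℝ) := by exact_mod_cast h
    linarith

end Pool.Agent.Y373.SF
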