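import Mathlib

/-!
Sum-free subsets of the grid `[N]^d` for large `d`: statements of the parts.
-/

set_option autoImplicit false

namespace Pool.Agent.Y373.SF

/-- The grid `[N]^d`, as a finite set of functions `Fin d → ℕ`. -/
def grid (d N : ℕ) : Finset (Fin d → ℕ) := Fintype.piFinset fun _ => Finset.Icc 1 N

/-- No `x, y, z` in `A` (repetitions allowed) satisfy `x + y = z`. -/
def SumFree {d : ℕ} (A : Finset (Fin d → ℕ)) : Prop := ∀ x ∈ A, ∀ y ∈ A, x + y ∉ A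

/-- The largest size of a sum-free subset of `[N]^d`. -/
noncomputable def s (d N : ℕ) : ℕ := sSup {k : ℕ | ∃ A ⊆ grid d N, SumFree A ∧ A.card = k}

/-- Counting the pairs `(x, y)` of points of the grid with `x + y` in the grid. -/
def S_CNT : Prop := ∀ (d N : ℕ) (A : Finset (Fin d → ℕ)), A ⊆ grid d N → SumFree A →
  ((N : ℝ) * ((N : ℝ) - 1) / 2) ^ d ≤
    2 * ∑ x ∈ grid d N \ A, ∏ i, ((N : ℝ) - (x i : ℝ)) +
      ∑ x ∈ grid d N \ A, ∏ i, ((x i : ℝ) - 1)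

/-- Truncation (Markov). -/
def S_TRUNC : Prop := ∀ (d : ℕ) (B G : Finset (Fin d → ℕ)) (w : (Fin d → ℕ) → ℝ) (W l : ℝ),
  B ⊆ G → 0 < W → 0 < l → (∀ x ∈ G, 0 ≤ w x) →
  ∑ x ∈ B, w x ≤ W * (B.card : ℝ) + W ^ (-l) * ∑ x ∈ G, (w x) ^ (1 + l)

/-- The moment of the first weight. -/
def S_POW1 : Prop := ∀ (d N : ℕ) (l : ℝ), 0 < l →
  ∑ x ∈ grid d N, (∏ i, ((N : ℝ) - (x i : ℝ))) ^ (1 + l) ≤
    ((N : ℝ) ^ (2 + l) / (2 + l)) ^ d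

/-- The moment of the second weight. -/
def S_POW2 : Prop := ∀ (d N : ℕ) (l : ℝ), 0 < l →
  ∑ x ∈ grid d N, (∏ i, ((x i : ℝ) - 1)) ^ (1 + l) ≤
    ((N : ℝ) ^ (2 + l) / (2 + l)) ^ d

/-- The complement of a sum-free set is large. -/
def S_LOW : Prop := ∀ ρ : ℝ, 0 < ρ → ρ < Real.exp (1 / 2) / 2 →
  ∃ d₀ : ℕ, ∀ d ≥ d₀, ∃ N₀ : ℕ, ∀ N ≥ N₀, ∀ A ⊆ grid d N, SumFree A →
    (ρ * (N : ℝ)) ^ d ≤ (N : ℝ) ^ d - (A.card : ℝ)

/-- Lower tail of the coordinate sum. -/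
def S_LT : Prop := ∀ (d N : ℕ) (t : ℝ), 0 < t → 1 ≤ N →
  (((grid d N).filter fun x => 3 * ∑ i, x i ≤ d * N).card : ℝ) ≤
    (Real.exp (t / 3) * (1 - Real.exp (-t)) / t * (N : ℝ)) ^ d

/-- Upper tail of the coordinate sum. -/
def S_UT : Prop := ∀ (d N : ℕ) (t : ℝ), 0 < t → 1 ≤ N →
  (((grid d N).filter fun x => 2 * (d * N) < 3 * ∑ i, x i).card : ℝ) ≤
    (Real.exp (t / N) * (Real.exp (t / 3) * (1 - Real.exp (-t)) / t) * (N : ℝ)) ^ d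

/-- The stripe. -/
def S_UP : Prop := ∃ N₀ : ℕ, ∀ N ≥ N₀, ∀ d : ℕ, ∃ A ⊆ grid d N, SumFree A ∧
  (N : ℝ) ^ d - (A.card : ℝ) ≤ 2 * (0.842 * (N : ℝ)) ^ d

end Pool.Agent.Y373.SF
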